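import Mathlib
import Pool.Agent.Work.MP_a2bf38_gt.Fu.W.GeoDefs

section

/-!
# Immersions in homogeneous coordinates
-/

open scoped ContDiff Topology
open Set Filter

namespace Pool.Agent.KRFAl

/-- an immersion is locally bi-Lipschitz -/
theorem antilip {V E : Type*} [NormedAddCommGroup V] [NormedSpace ℝ V] [FiniteDimensional ℝ V]
    [NormedAddCommGroup E] [NormedSpace ℝ E] {F : V → E} {z₀ : V} (hF : ContDiffAt ℝ 1 F z₀)
    (hinj : ∀ v, fderiv ℝ F z₀ v = 0 → v = 0) :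
    ∃ C : ℝ, 0 < C ∧ ∀ᶠ z : V × V in 𝓝 (z₀, z₀), ‖z.1 - z.2‖ ≤ C * ‖F z.1 - F z.2‖ := by
  obtain ⟨K, hK, hA⟩ := LinearMap.exists_antilipschitzWith (fderiv ℝ F z₀ : V →ₗ[ℝ] E)
    (LinearMap.ker_eq_bot'.2 hinj)
  have hK' : (0 : ℝ) < K := hK
  have hs : HasStrictFDerivAt F (fderiv ℝ F z₀) z₀ := hF.hasStrictFDerivAt (by norm_num)
  have h1 := (hs.isLittleO.def (c := 1 / (2 * K)) (by positivity))
  refine ⟨2 * K, by positivity, ?_⟩
  filter_upwards [h1] with z hz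
  have h2 : ‖z.1 - z.2‖ ≤ K * ‖fderiv ℝ F z₀ (z.1 - z.2)‖ := by
    have h3 := hA.le_mul_dist (z.1 - z.2) 0
    simpa [dist_eq_norm] using h3
  have h4 : ‖fderiv ℝ F z₀ (z.1 - z.2)‖ ≤
      ‖F z.1 - F z.2‖ + 1 / (2 * K) * ‖z.1 - z.2‖ := by
    have h5 : fderiv ℝ F z₀ (z.1 - z.2) =
        (F z.1 - F z.2) - (F z.1 - F z.2 - fderiv ℝ F z₀ (z.1 - z.2)) := by abel
    calc ‖fderiv ℝ F z₀ (z.1 - z.2)‖ = ‖(F z.1 - F z.2) -
          (F z.1 - F z.2 - fderiv ℝ F z₀ (z.1 - z.2))‖ := by rw [← h5]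
      _ ≤ ‖F z.1 - F z.2‖ + ‖F z.1 - F z.2 - fderiv ℝ F z₀ (z.1 - z.2)‖ := norm_sub_le _ _
      _ ≤ _ := by linarith
  have h6 : (K : ℝ) * (1 / (2 * K) * ‖z.1 - z.2‖) = ‖z.1 - z.2‖ / 2 := by
    field_simp
  have h7 : ‖z.1 - z.2‖ ≤ K * ‖F z.1 - F z.2‖ + ‖z.1 - z.2‖ / 2 := by
    refine h2.trans ((mul_le_mul_of_nonneg_left h4 hK'.le).trans (le_of_eq ?_))
    rw [mul_add, h6]
  linarith

/-- the affine coordinates of two points of `ℙ^L` -/
theorem norm_ratio_le {ι : Type*} [Fintype ι] {x x' : ι → ℂ} {i : ι} {ε : ℝ} (hε : 0 < ε)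
    (hx : x ≠ 0) (hx' : x' ≠ 0) (hi : ε * ‖x‖ ≤ ‖x i‖) (hi' : ε * ‖x'‖ ≤ ‖x' i‖) :
    ‖(x i)⁻¹ • x - (x' i)⁻¹ • x'‖ ≤ (1 / ε + 1 / ε ^ 2) * (‖x - x'‖ / ‖x‖) := by
  have n0 : 0 < ‖x‖ := norm_pos_iff.2 hx
  have n0' : 0 < ‖x'‖ := norm_pos_iff.2 hx'
  have m0 : 0 < ‖x i‖ := lt_of_lt_of_le (by positivity) hi
  have m0' : 0 < ‖x' i‖ := lt_of_lt_of_le (by positivity) hi'
  have e0 : x i ≠ 0 := norm_pos_iff.1 m0
  have e0' : x' i ≠ 0 := norm_pos_iff.1 m0'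
  have h1 : (x i)⁻¹ • x - (x' i)⁻¹ • x' =
      (x i)⁻¹ • (x - x') + ((x' i - x i) / (x i * x' i)) • x' := by
    have h2 : (x' i - x i) / (x i * x' i) = (x i)⁻¹ - (x' i)⁻¹ := by
      field_simp
    rw [h2, smul_sub, sub_smul]
    abel
  have h3 : ‖(x i)⁻¹‖ ≤ 1 / (ε * ‖x‖) := by
    rw [norm_inv, one_div]
    exact inv_anti₀ (by positivity) hi
  have h3' : ‖(x' i)⁻¹‖ ≤ 1 / (ε * ‖x'‖) := by
    rw [norm_inv, one_div]
    exact inv_anti₀ (by positivity) hi'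
  have h4 : ‖x' i - x i‖ ≤ ‖x - x'‖ := by
    rw [norm_sub_rev]
    exact norm_le_pi_norm (x - x') i
  have h5 : ‖((x' i - x i) / (x i * x' i)) • x'‖ ≤
      ‖x - x'‖ * (1 / (ε * ‖x‖)) * (1 / (ε * ‖x'‖)) * ‖x'‖ := by
    rw [norm_smul, div_eq_mul_inv, mul_inv, norm_mul, norm_mul, ← mul_assoc]
    gcongr
  have h6 : ‖(x i)⁻¹ • (x - x')‖ ≤ 1 / (ε * ‖x‖) * ‖x - x'‖ := by
    rw [norm_smul]
    gcongr
  rw [h1]
  refine (norm_add_le _ _).trans ((add_le_add h6 h5).trans (le_of_eq ?_))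
  field_simp

/-- the derivative of affine coordinates -/
theorem fderiv_of_ratio {V : Type*} [NormedAddCommGroup V] [NormedSpace ℝ V] {κ : Type*}
    [Fintype κ] {W : V → κ → ℂ} {k : κ} {z₀ : V} (hW : ContDiffAt ℝ 1 W z₀) (hk : W z₀ k ≠ 0)
    (v : V) (hv : fderiv ℝ (fun z => (W z k)⁻¹ • W z) z₀ v = 0) :
    ∃ a : ℂ, fderiv ℝ W z₀ v = a • W z₀ := by
  have hWk : ContDiffAt ℝ 1 (fun z => (W z k)⁻¹) z₀ := (contDiffAt_pi.1 hW k).inv hk
  have h1 := (hWk.differentiableAt (by norm_num)).hasFDerivAt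
  have h2 := (hW.differentiableAt (by norm_num)).hasFDerivAt
  have h3 : HasFDerivAt (fun z => (W z k)⁻¹ • W z) _ z₀ := h1.smul h2
  rw [h3.fderiv] at hv
  simp only [add_apply, smul_apply,
    ContinuousLinearMap.smulRight_apply] at hv
  set b : ℂ := fderiv ℝ (fun z => (W z k)⁻¹) z₀ v with hb
  refine ⟨-(W z₀ k * b), ?_⟩
  have h4 : (W z₀ k)⁻¹ • fderiv ℝ W z₀ v = -(b • W z₀) := eq_neg_of_add_eq_zero_left hv
  have h5 := congrArg (fun u => W z₀ k • u) h4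
  simp only [smul_inv_smul₀ hk] at h5
  rw [h5, smul_neg, smul_smul, neg_smul]

/-- homogeneous coordinates `X` and coordinates `F` of an immersion -/
theorem ratio_antilip {V E : Type*} [NormedAddCommGroup V] [NormedSpace ℝ V]
    [FiniteDimensional ℝ V] [NormedAddCommGroup E] [NormedSpace ℝ E] {ι : Type*} [Fintype ι]
    {X : V → ι → ℂ} {F : V → E} {z₀ : V} (hX : ContDiffAt ℝ 1 X z₀) (hF : ContDiffAt ℝ 1 F z₀)
    {i : ι} (hi : X z₀ i ≠ 0)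
    (himm : ∀ v, fderiv ℝ F z₀ v = 0 → (∃ a : ℂ, fderiv ℝ X z₀ v = a • X z₀) → v = 0) :
    ∃ C : ℝ, 0 < C ∧ ∀ᶠ z : V × V in 𝓝 (z₀, z₀), ‖z.1 - z.2‖ ≤
      C * (‖(X z.1 i)⁻¹ • X z.1 - (X z.2 i)⁻¹ • X z.2‖ + ‖F z.1 - F z.2‖) := by
  have hXi : ContDiffAt ℝ 1 (fun z => X z i) z₀ := contDiffAt_pi.1 hX i
  have hG : ContDiffAt ℝ 1 (fun z => ((X z i)⁻¹ • X z, F z)) z₀ :=
    ((hXi.inv hi).smul hX).prodMk hF
  obtain ⟨C, hC, h⟩ := antilip hG (by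
    intro v hv
    have h1 : HasFDerivAt (fun z => ((X z i)⁻¹ • X z, F z)) _ z₀ :=
      (((hXi.inv hi).smul hX).differentiableAt (by norm_num)).hasFDerivAt.prodMk
      (hF.differentiableAt (by norm_num)).hasFDerivAt
    rw [h1.fderiv] at hv
    have h2 := Prod.ext_iff.1 hv
    exact himm v h2.2 (fderiv_of_ratio hX hi v h2.1))
  refine ⟨C, hC, ?_⟩
  filter_upwards [h] with z hz
  refine hz.trans (mul_le_mul_of_nonneg_left ?_ hC.le)
  rw [Prod.norm_def]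
  exact max_le (by
    change ‖(X z.1 i)⁻¹ • X z.1 - (X z.2 i)⁻¹ • X z.2‖ ≤ _
    linarith [norm_nonneg (F z.1 - F z.2)]) (by
    change ‖F z.1 - F z.2‖ ≤ _
    linarith [norm_nonneg ((X z.1 i)⁻¹ • X z.1 - (X z.2 i)⁻¹ • X z.2)])

/-- The local estimate: two points with the same value of `F`. -/
theorem metric_local {V E : Type*} [NormedAddCommGroup V] [NormedSpace ℝ V]
    [FiniteDimensional ℝ V] [NormedAddCommGroup E] [NormedSpace ℝ E] {ι : Type*} [Fintype ι]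
    {X : V → ι → ℂ} {F : V → E} {z₀ : V} (hX : ContDiffAt ℝ 1 X z₀) (hF : ContDiffAt ℝ 1 F z₀)
    (hX0 : X z₀ ≠ 0)
    (himm : ∀ v, fderiv ℝ F z₀ v = 0 → (∃ a : ℂ, fderiv ℝ X z₀ v = a • X z₀) → v = 0) :
    ∃ C : ℝ, 0 < C ∧ ∀ᶠ z : V × V in 𝓝 (z₀, z₀), F z.1 = F z.2 → ∀ x x' : ι → ℂ, x ≠ 0 →
      x' ≠ 0 → (∃ a : ℂ, x = a • X z.1) → (∃ a : ℂ, x' = a • X z.2) →
      ‖z.1 - z.2‖ ≤ C * ‖x - x'‖ / ‖x‖ := by
  obtain ⟨i, hi⟩ := Function.ne_iff.1 hX0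
  obtain ⟨C, hC, h⟩ := ratio_antilip hX hF hi himm
  have nX : 0 < ‖X z₀‖ := norm_pos_iff.2 hX0
  have nXi : 0 < ‖X z₀ i‖ := norm_pos_iff.2 hi
  set ε : ℝ := ‖X z₀ i‖ / (2 * ‖X z₀‖) with hε
  have hε0 : 0 < ε := by positivity
  have hcX : ContinuousAt X z₀ := hX.continuousAt
  have hcXi : ContinuousAt (fun z => X z i) z₀ := continuousAt_pi.1 hcX i
  have e1 : ∀ᶠ z in 𝓝 z₀, ε * ‖X z‖ < ‖X z i‖ := by
    have h1 : ε * ‖X z₀‖ < ‖X z₀ i‖ := by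
      rw [hε, div_mul_eq_mul_div, div_lt_iff₀ (by positivity)]
      nlinarith
    exact (continuousAt_const.mul hcX.norm).eventually_lt hcXi.norm h1
  have e3 := e1.prod_nhds e1
  refine ⟨C * (1 / ε + 1 / ε ^ 2), by positivity, ?_⟩
  filter_upwards [h, e3] with z hz h3 hFz x x' hx hx' hxa hxa'
  obtain ⟨a, rfl⟩ := hxa
  obtain ⟨a', rfl⟩ := hxa'
  have ha : a ≠ 0 := fun h0 => hx (by rw [h0, zero_smul])
  have ha' : a' ≠ 0 := fun h0 => hx' (by rw [h0, zero_smul])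
  have k2 : ∀ (a : ℂ) (u : ι → ℂ), a ≠ 0 → (u i)⁻¹ • u = ((a • u) i)⁻¹ • (a • u) := by
    intro a u ha
    rw [Pi.smul_apply, smul_eq_mul, smul_smul, mul_inv]
    congr 1
    field_simp
  have k3 : ∀ (a : ℂ) (u : ι → ℂ), ε * ‖u‖ < ‖u i‖ → ε * ‖a • u‖ ≤ ‖(a • u) i‖ := by
    intro a u hu
    rw [norm_smul, Pi.smul_apply, norm_smul]
    have := mul_le_mul_of_nonneg_left hu.le (norm_nonneg a)
    linarith
  have k4 := norm_ratio_le hε0 hx hx' (k3 a _ h3.1) (k3 a' _ h3.2)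
  rw [← k2 a _ ha, ← k2 a' _ ha'] at k4
  rw [hFz, sub_self, norm_zero, add_zero] at hz
  refine hz.trans ((mul_le_mul_of_nonneg_left k4 hC.le).trans (le_of_eq ?_))
  ring

/-- two different points of `ℙ^L` have disjoint neighbourhoods -/
theorem sep {V V' : Type*} [TopologicalSpace V] [TopologicalSpace V'] {ι : Type*} [Fintype ι]
    {X : V → ι → ℂ} {X' : V' → ι → ℂ} {z₀ : V} {z₀' : V'} (hX : ContinuousAt X z₀)
    (hX' : ContinuousAt X' z₀') (h0 : X z₀ ≠ 0)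
    (hne : ¬ ∃ a : ℂ, X' z₀' = a • X z₀) :
    ∃ ε : ℝ, 0 < ε ∧ ∀ᶠ z : V × V' in 𝓝 (z₀, z₀'), ∀ x x' : ι → ℂ,
      (∃ a : ℂ, x = a • X z.1) → (∃ a : ℂ, x' = a • X' z.2) → ε * ‖x‖ ≤ ‖x - x'‖ := by
  let L : (ℂ × ℂ) →ₗ[ℂ] (ι → ℂ) :=
    (LinearMap.fst ℂ ℂ ℂ).smulRight (X z₀) - (LinearMap.snd ℂ ℂ ℂ).smulRight (X' z₀')
  have hL : ∀ p : ℂ × ℂ, L p = p.1 • X z₀ - p.2 • X' z₀' := fun p => rfl
  have hker : LinearMap.ker L = ⊥ := by
    refine LinearMap.ker_eq_bot'.2 fun p hp => ?_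
    rw [hL, sub_eq_zero] at hp
    have h2 : p.2 = 0 := by
      by_contra h2
      apply hne
      refine ⟨p.2⁻¹ * p.1, ?_⟩
      rw [mul_smul, hp, inv_smul_smul₀ h2]
    rw [h2, zero_smul] at hp
    have h1 : p.1 = 0 := (smul_eq_zero.1 hp).resolve_right h0
    exact Prod.ext h1 h2
  obtain ⟨K, hK, hA⟩ := L.exists_antilipschitzWith hker
  have hK' : (0 : ℝ) < K := hK
  have hp : ∀ p : ℂ × ℂ, ‖p‖ ≤ K * ‖L p‖ := by
    intro p
    have h3 := hA.le_mul_dist p 0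
    simpa [dist_eq_norm] using h3
  have e1 : ∀ᶠ z in 𝓝 z₀, ‖X z - X z₀‖ < 1 / (4 * K) ∧ ‖X z‖ < ‖X z₀‖ + 1 := by
    refine Filter.Eventually.and ?_ (hX.norm.eventually_lt continuousAt_const (by linarith))
    have h1 : ContinuousAt (fun z => ‖X z - X z₀‖) z₀ := (hX.sub continuousAt_const).norm
    exact h1.eventually_lt continuousAt_const (by simp; positivity)
  have e2 : ∀ᶠ z in 𝓝 z₀', ‖X' z - X' z₀'‖ < 1 / (4 * K) := by
    have h1 : ContinuousAt (fun z => ‖X' z - X' z₀'‖) z₀' := (hX'.sub continuousAt_const).norm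
    exact h1.eventually_lt continuousAt_const (by simp; positivity)
  refine ⟨1 / (2 * K * (‖X z₀‖ + 1)), by positivity, ?_⟩
  filter_upwards [e1.prod_nhds e2] with z hz x x' hx hx'
  obtain ⟨⟨z1, z2⟩, z3⟩ := hz
  obtain ⟨a, rfl⟩ := hx
  obtain ⟨b, rfl⟩ := hx'
  set m : ℝ := ‖((a, b) : ℂ × ℂ)‖ with hm
  have ma : ‖a‖ ≤ m := norm_fst_le ((a, b) : ℂ × ℂ)
  have mb : ‖b‖ ≤ m := norm_snd_le ((a, b) : ℂ × ℂ)
  have m0 : 0 ≤ m := norm_nonneg _
  have h1 : L (a, b) = (a • X z.1 - b • X' z.2) - a • (X z.1 - X z₀) + b • (X' z.2 - X' z₀') := by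
    rw [hL, smul_sub, smul_sub]
    abel
  have h2 : ‖L (a, b)‖ ≤ ‖a • X z.1 - b • X' z.2‖ + m * (1 / (4 * K)) + m * (1 / (4 * K)) := by
    rw [h1]
    refine (norm_add_le _ _).trans (add_le_add ((norm_sub_le _ _).trans (add_le_add le_rfl ?_)) ?_)
    · rw [norm_smul]
      exact mul_le_mul ma z1.le (norm_nonneg _) m0
    · rw [norm_smul]
      exact mul_le_mul mb z3.le (norm_nonneg _) m0
  have h3 := hp (a, b)
  have h4 : (K : ℝ) * (m * (1 / (4 * K))) = m / 4 := by field_simp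
  have h5 : m ≤ K * ‖a • X z.1 - b • X' z.2‖ + m / 2 := by
    have h6 := mul_le_mul_of_nonneg_left h2 hK'.le
    have h7 : (K : ℝ) * (‖a • X z.1 - b • X' z.2‖ + m * (1 / (4 * K)) + m * (1 / (4 * K))) =
        K * ‖a • X z.1 - b • X' z.2‖ + m / 2 := by
      rw [mul_add, mul_add, h4]
      ring
    linarith
  have h8 : m ≤ 2 * K * ‖a • X z.1 - b • X' z.2‖ := by linarith
  have h9 : ‖a • X z.1‖ ≤ m * (‖X z₀‖ + 1) := by
    rw [norm_smul]
    exact mul_le_mul ma z2.le (norm_nonneg _) m0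
  have h10 : 0 < ‖X z₀‖ + 1 := by positivity
  rw [div_mul_eq_mul_div, one_mul, div_le_iff₀ (by positivity)]
  nlinarith

/-- not proportional is an open condition -/
theorem eventually_not_smul {V V' : Type*} [TopologicalSpace V] [TopologicalSpace V'] {ι : Type*}
    [Fintype ι] {X : V → ι → ℂ} {X' : V' → ι → ℂ} {z₀ : V} {z₀' : V'} (hX : ContinuousAt X z₀)
    (hX' : ContinuousAt X' z₀') (h0 : X z₀ ≠ 0) (h0' : X' z₀' ≠ 0)
    (hne : ¬ ∃ a : ℂ, X' z₀' = a • X z₀) :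
    ∀ᶠ z : V × V' in 𝓝 (z₀, z₀'), ¬ ∃ a : ℂ, X' z.2 = a • X z.1 := by
  obtain ⟨ε, hε, h⟩ := sep hX hX' h0 hne
  have e1 : ∀ᶠ z in 𝓝 z₀, X z ≠ 0 := hX.eventually_ne h0
  have e2 : ∀ᶠ z in 𝓝 z₀', X' z ≠ 0 := hX'.eventually_ne h0'
  filter_upwards [h, e1.prod_nhds e2] with z hz h1
  rintro ⟨a, ha⟩
  have h2 := hz (a • X z.1) (X' z.2) ⟨a, rfl⟩ ⟨1, by rw [one_smul]⟩
  rw [ha, sub_self, norm_zero] at h2
  have h3 : 0 < ‖a • X z.1‖ := by
    rw [← ha]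
    exact norm_pos_iff.2 h1.2
  nlinarith

end Pool.Agent.KRFAl

end

section

/-!
# The distance in the fibres of a locally projective map
-/

open scoped ContDiff ENNReal ComplexOrder LinearAlgebra.Projectivization Topology
open Set Filter Pool.Agent.ToricKRF Pool.Agent.ToricKRF.G Pool.Agent.KRFS Pool.Agent.KRFF
  Pool.Agent.KRFZ

namespace Pool.Agent.KRFW

namespace MT

/-- the complex coordinates, as a linear map -/
noncomputable def ccP (m : ℕ) : Cn m →L[ℝ] (Fin m → ℂ) :=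
  ContinuousLinearMap.pi fun a => NF.ccL a

theorem ccP_apply {m : ℕ} (u : Cn m) : ccP m u = cc u := by
  funext a
  exact NF.ccL_apply a u

theorem cc_injective {m : ℕ} {u w : Cn m} (h : cc u = cc w) : u = w := by
  have h1 : cc (u - w) = 0 := by
    rw [← ccP_apply, map_sub, ccP_apply, ccP_apply, h, sub_self]
  by_contra hne
  exact cc_ne_zero (sub_ne_zero.2 hne) h1

theorem smul_cc {m : ℕ} (a : ℂ) (u : Cn m) : a • cc u = cc (a.re • u + a.im • J u) := by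
  rw [← ccP_apply (a.re • u + a.im • J u), map_add, map_smul, map_smul, ccP_apply, ccP_apply]
  funext k
  simp only [Pi.smul_apply, Pi.add_apply, cc_J, smul_eq_mul, Complex.real_smul]
  conv_lhs => rw [← Complex.re_add_im a]
  ring

/-- a bound which is locally uniform is uniform on compact sets -/
theorem exists_unif {A : Type*} [TopologicalSpace A] {K : Set A} (hK : IsCompact K)
    (P : A → ℝ → Prop) (hm : ∀ a C C', C ≤ C' → P a C → P a C')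
    (hl : ∀ a ∈ K, ∃ C, ∀ᶠ b in 𝓝 a, P b C) : ∃ C, 0 < C ∧ ∀ a ∈ K, P a C := by
  classical
  choose! C hC using hl
  obtain ⟨t, -, ht⟩ := hK.elim_nhds_subcover (fun a => {b | P b (C a)}) hC
  refine ⟨∑ a ∈ t, |C a| + 1, ?_, fun a ha => ?_⟩
  · have : 0 ≤ ∑ a ∈ t, |C a| := Finset.sum_nonneg fun a _ => abs_nonneg _
    linarith
  · obtain ⟨b, hb, hab⟩ := mem_iUnion₂.1 (ht ha)
    refine hm a (C b) _ ?_ hab
    have h1 := Finset.single_le_sum (f := fun a => |C a|) (fun a _ => abs_nonneg _) hb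
    have h2 := le_abs_self (C b)
    linarith

section

variable {M Z : Type} [MetricSpace M] [MetricSpace Z] {n N : ℕ} {κ P : Type}
  {e : κ → OpenPartialHomeomorph M (Cn n)} {U : P → Set Z} {q : P → Z → Cn N} {f : M → Z}
  {ψ : κ → ℝ × Cn n → ℝ} {S : Set Z} {L d : ℕ} {ι : M → ℙ ℂ (Fin (L + 1) → ℂ)}

/-- the estimate at the pair `p` -/
def Est (f : M → Z) (ι : M → ℙ ℂ (Fin (L + 1) → ℂ)) (p : M × M) (C : ℝ) : Prop :=
  f p.1 = f p.2 → ∀ (x x' : Fin (L + 1) → ℂ) (h : x ≠ 0) (h' : x' ≠ 0),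
    ι p.1 = Projectivization.mk ℂ x h → ι p.2 = Projectivization.mk ℂ x' h' →
    ‖x‖ = 1 → ‖x'‖ = 1 → dist p.1 p.2 ≤ C * ‖x - x'‖

omit [MetricSpace Z] in
theorem est_mono (p : M × M) (C C' : ℝ) (h : C ≤ C') (hC : Est f ι p C) : Est f ι p C' := by
  intro h1 x x' hx hx' h2 h3 h4 h5
  exact (hC h1 x x' hx hx' h2 h3 h4 h5).trans (mul_le_mul_of_nonneg_right h (norm_nonneg _))

omit [MetricSpace Z] in
theorem near {c : κ} {W : Set (Cn n)} {p : M} (hc : p ∈ (e c).source) (hW : IsOpen W)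
    (hp : e c p ∈ W) : ∀ᶠ p' in 𝓝 p, p' ∈ (e c).source ∧ e c p' ∈ W := by
  filter_upwards [(e c).open_source.mem_nhds hc,
    ((e c).continuousAt hc).eventually (hW.mem_nhds hp)] with p' h1 h2
  exact ⟨h1, h2⟩

/-- homogeneous coordinates near `p` -/
theorem exists_lift {c : κ} {F : Cn n → Cn (L + 1)} {W : Set (Cn n)} (hF : IsLift e ι c F W) {p : M}
    (hp : p ∈ (e c).source) (hpW : e c p ∈ W) : cc (F (e c p)) ≠ 0 ∧
      ∀ (x : Fin (L + 1) → ℂ) (h : x ≠ 0), ι p = Projectivization.mk ℂ x h →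
        ∃ a : ℂ, x = a • cc (F (e c p)) := by
  obtain ⟨h0, h1⟩ := hF.2.2.2 _ hpW
  refine ⟨h0, fun x h hx => ?_⟩
  rw [(e c).left_inv hp] at h1
  rw [h1] at hx
  obtain ⟨a, ha⟩ := (Projectivization.mk_eq_mk_iff' ℂ _ _ h0 h).1 hx
  have ha0 : a ≠ 0 := by
    rintro rfl
    rw [zero_smul] at ha
    exact h0 ha.symm
  exact ⟨a⁻¹, by rw [← ha, smul_smul, inv_mul_cancel₀ ha0, one_smul]⟩

/-- the estimate near a pair of different points -/
theorem est_off [CompactSpace M] (G : GeoData e U q f ψ) (hι : IsProjOver e U q f S ι d)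
    {p : M × M} (hp : p.1 ≠ p.2) (hfp : f p.1 = f p.2) (hS : f p.1 ∈ S) :
    ∃ C, ∀ᶠ p' in 𝓝 p, Est f ι p' C := by
  obtain ⟨c, hc⟩ := G.atlas.cover p.1
  obtain ⟨c', hc'⟩ := G.atlas.cover p.2
  obtain ⟨F, W, hxW, hF, -⟩ := hι.lift c (e c p.1) ((e c).map_source hc)
    (by rwa [(e c).left_inv hc])
  obtain ⟨F', W', hxW', hF', -⟩ := hι.lift c' (e c' p.2) ((e c').map_source hc')
    (by rwa [(e c').left_inv hc', ← hfp])
  have hX : ContinuousAt (fun p => cc (F (e c p))) p.1 := by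
    have h1 : ContinuousAt F (e c p.1) := hF.2.2.1.1.continuousOn.continuousAt
      (hF.1.mem_nhds hxW)
    have h2 : ContinuousAt (fun p => ccP (L + 1) (F (e c p))) p.1 :=
      (ccP (L + 1)).continuous.continuousAt.comp (h1.comp ((e c).continuousAt hc))
    simpa only [ccP_apply] using h2
  have hX' : ContinuousAt (fun p => cc (F' (e c' p))) p.2 := by
    have h1 : ContinuousAt F' (e c' p.2) := hF'.2.2.1.1.continuousOn.continuousAt
      (hF'.1.mem_nhds hxW')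
    have h2 : ContinuousAt (fun p => ccP (L + 1) (F' (e c' p))) p.2 :=
      (ccP (L + 1)).continuous.continuousAt.comp (h1.comp ((e c').continuousAt hc'))
    simpa only [ccP_apply] using h2
  have hn := (exists_lift hF hc hxW).1
  have hn' := (exists_lift hF' hc' hxW').1
  have hne : ¬ ∃ a : ℂ, cc (F' (e c' p.2)) = a • cc (F (e c p.1)) := by
    rintro ⟨a, ha⟩
    refine hp (hι.inj _ _ hS hfp ?_)
    obtain ⟨h0, h1⟩ := hF.2.2.2 _ hxW
    obtain ⟨h0', h1'⟩ := hF'.2.2.2 _ hxW'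
    rw [(e c).left_inv hc] at h1
    rw [(e c').left_inv hc'] at h1'
    rw [h1, h1']
    exact ((Projectivization.mk_eq_mk_iff' ℂ _ _ h0' h0).2 ⟨a, ha.symm⟩).symm
  obtain ⟨ε, hε, hev⟩ := KRFAl.sep hX hX' hn hne
  obtain ⟨D, hD⟩ := Metric.isBounded_iff.1 (isCompact_univ : IsCompact (univ : Set M)).isBounded
  have hD0 : 0 ≤ D := dist_nonneg.trans (hD (mem_univ p.1) (mem_univ p.1))
  refine ⟨D / ε, ?_⟩
  have hs1 : ∀ᶠ p' : M × M in 𝓝 p, p'.1 ∈ (e c).source ∧ e c p'.1 ∈ W :=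
    continuousAt_fst.eventually (near hc hF.1 hxW)
  have hs2 : ∀ᶠ p' : M × M in 𝓝 p, p'.2 ∈ (e c').source ∧ e c' p'.2 ∈ W' :=
    continuousAt_snd.eventually (near hc' hF'.1 hxW')
  filter_upwards [hs1, hs2, hev] with p' h1 h2 h3
  intro _ x x' hx hx' hιx hιx' nx _
  have h4 := h3 x x' ((exists_lift hF h1.1 h1.2).2 x hx hιx)
    ((exists_lift hF' h2.1 h2.2).2 x' hx' hιx')
  rw [nx, mul_one] at h4
  calc dist p'.1 p'.2 ≤ D := hD (mem_univ _) (mem_univ _)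
    _ = D / ε * ε := by field_simp
    _ ≤ D / ε * ‖x - x'‖ := by gcongr

/-- the estimate near the diagonal -/
theorem est_diag (G : GeoData e U q f ψ) (hι : IsProjOver e U q f S ι d) {p₀ : M}
    (hS : f p₀ ∈ S) : ∃ C, ∀ᶠ p' in 𝓝 (p₀, p₀), Est f ι p' C := by
  obtain ⟨c, hc⟩ := G.atlas.cover p₀
  obtain ⟨j, hj⟩ := G.cover (f p₀)
  have hj' : f ((e c).symm (e c p₀)) ∈ U j := by rwa [(e c).left_inv hc]
  obtain ⟨F, W, hxW, hF, himm⟩ := hι.lift c (e c p₀) ((e c).map_source hc)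
    (by rwa [(e c).left_inv hc])
  have hUo : IsOpen (fdom e U f c j) :=
    (e c).isOpen_inter_preimage_symm ((G.isOpen j).preimage G.cont)
  have hm : ContDiffAt ℝ ∞ (fmap e q f c j) (e c p₀) :=
    (G.holo c j).1.contDiffAt (hUo.mem_nhds ⟨(e c).map_source hc, hj'⟩)
  have hFd : ContDiffAt ℝ ∞ F (e c p₀) := hF.2.2.1.1.contDiffAt (hF.1.mem_nhds hxW)
  have hX : ContDiffAt ℝ ∞ (fun z => cc (F z)) (e c p₀) := by
    have h1 : ContDiffAt ℝ ∞ (fun z => ccP (L + 1) (F z)) (e c p₀) :=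
      (ccP (L + 1)).contDiff.contDiffAt.comp _ hFd
    simpa only [ccP_apply] using h1
  have hXf : ∀ v, fderiv ℝ (fun z => cc (F z)) (e c p₀) v = cc (fderiv ℝ F (e c p₀) v) := by
    intro v
    have h1 : HasFDerivAt (fun z => ccP (L + 1) (F z)) ((ccP (L + 1)).comp
        (fderiv ℝ F (e c p₀))) (e c p₀) :=
      (ccP (L + 1)).hasFDerivAt.comp _ (hFd.differentiableAt (by simp)).hasFDerivAt
    simp only [ccP_apply] at h1
    rw [h1.fderiv, ContinuousLinearMap.comp_apply, ccP_apply]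
  have hn := (exists_lift hF hc hxW).1
  obtain ⟨C₁, hC₁, hev₁⟩ := KRFAl.metric_local (hX.of_le (by simp)) (hm.of_le (by simp)) hn (by
    rintro v hv ⟨a, ha⟩
    refine himm j hj' v hv ⟨a.re, a.im, cc_injective ?_⟩
    rw [← hXf, ha, smul_cc])
  obtain ⟨C₂, hC₂, hev₂⟩ := G.lip c p₀ hc
  have hcc : ContinuousAt (fun p : M × M => (e c p.1, e c p.2)) (p₀, p₀) :=
    ContinuousAt.prodMk (((e c).continuousAt hc).comp continuousAt_fst)
      (((e c).continuousAt hc).comp continuousAt_snd)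
  have hs1 : ∀ᶠ p' : M × M in 𝓝 (p₀, p₀), p'.1 ∈ (e c).source ∧ e c p'.1 ∈ W :=
    (continuousAt_fst (p := (p₀, p₀))).eventually (near hc hF.1 hxW)
  have hs2 : ∀ᶠ p' : M × M in 𝓝 (p₀, p₀), p'.2 ∈ (e c).source ∧ e c p'.2 ∈ W :=
    (continuousAt_snd (p := (p₀, p₀))).eventually (near hc hF.1 hxW)
  refine ⟨C₂ * C₁, ?_⟩
  filter_upwards [hs1, hs2, hev₂, hcc.eventually hev₁] with p h1 h2 h3 h4
  intro hfp x x' hx hx' hιx hιx' nx _
  have h5 : fmap e q f c j (e c p.1) = fmap e q f c j (e c p.2) := by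
    show q j (f ((e c).symm (e c p.1))) = q j (f ((e c).symm (e c p.2)))
    rw [(e c).left_inv h1.1, (e c).left_inv h2.1, hfp]
  have h6 := h4 h5 x x' hx hx' ((exists_lift hF h1.1 h1.2).2 x hx hιx)
    ((exists_lift hF h2.1 h2.2).2 x' hx' hιx')
  rw [nx, div_one] at h6
  calc dist p.1 p.2 ≤ C₂ * dist (e c p.1) (e c p.2) := h3.2
    _ = C₂ * ‖e c p.1 - e c p.2‖ := by rw [dist_eq_norm]
    _ ≤ C₂ * (C₁ * ‖x - x'‖) := by gcongr
    _ = C₂ * C₁ * ‖x - x'‖ := by ring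

end

end MT

section

variable {M Z : Type} [MetricSpace M] [CompactSpace M] [MetricSpace Z] {n N : ℕ} {κ P : Type}
  {e : κ → OpenPartialHomeomorph M (Cn n)} {U : P → Set Z} {q : P → Z → Cn N} {f : M → Z}
  {ψ : κ → ℝ × Cn n → ℝ}

/-- the distance of two points of a fibre is at most the distance of homogeneous coordinates -/
theorem dist_le (G : GeoData e U q f ψ) {S : Set Z} {L d : ℕ} {ι : M → ℙ ℂ (Fin (L + 1) → ℂ)}
    (hι : IsProjOver e U q f S ι d) (hS : IsOpen S) {z₀ : Z} (hz₀ : z₀ ∈ S) :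
    ∃ (S' : Set Z) (C : ℝ), IsOpen S' ∧ z₀ ∈ S' ∧ S' ⊆ S ∧ 0 < C ∧
      ∀ p p', f p ∈ S' → f p = f p' → ∀ (x x' : Fin (L + 1) → ℂ) (h : x ≠ 0) (h' : x' ≠ 0),
        ι p = Projectivization.mk ℂ x h → ι p' = Projectivization.mk ℂ x' h' →
        ‖x‖ = 1 → ‖x'‖ = 1 → dist p p' ≤ C * ‖x - x'‖ := by
  obtain ⟨ρ, hρ, hball⟩ := Metric.isOpen_iff.1 hS z₀ hz₀
  have hsub : Metric.closedBall z₀ (ρ / 2) ⊆ S :=
    (Metric.closedBall_subset_ball (by linarith)).trans hball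
  have hB : IsCompact {p : M × M | f p.1 = f p.2 ∧ f p.1 ∈ Metric.closedBall z₀ (ρ / 2)} := by
    have h1 : IsClosed {p : M × M | f p.1 = f p.2} :=
      isClosed_eq (G.cont.comp continuous_fst) (G.cont.comp continuous_snd)
    have h2 : IsClosed {p : M × M | f p.1 ∈ Metric.closedBall z₀ (ρ / 2)} :=
      Metric.isClosed_closedBall.preimage (G.cont.comp continuous_fst)
    exact (h1.inter h2).isCompact
  obtain ⟨C, hC, hCB⟩ := MT.exists_unif hB (MT.Est f ι) MT.est_mono (by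
    rintro ⟨p, p'⟩ ⟨hp, hpA⟩
    rcases eq_or_ne p p' with rfl | hne
    · exact MT.est_diag G hι (hsub hpA)
    · exact MT.est_off G hι hne hp (hsub hpA))
  refine ⟨Metric.ball z₀ (ρ / 2), C, Metric.isOpen_ball, Metric.mem_ball_self (by linarith),
    Metric.ball_subset_closedBall.trans hsub, hC, fun p p' hp hpp => ?_⟩
  exact hCB (p, p') ⟨hpp, Metric.ball_subset_closedBall hp⟩ hpp

end

end Pool.Agent.KRFW

end
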